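import Pool.Agent.Lib.helper32.GammaCH

set_option autoImplicit false

namespace Pool.Agent.Results.MP_a930b8_gt.Strict

open Filter Topology Set Pool.Agent.Lib.helper32.Tau Pool.Agent.Lib.helper32.Hom

def NCover {Z : Type*} [TopologicalSpace Z] (n : ℕ) (𝓤 : Set (Set Z)) : Prop :=
  Cover 𝓤 ∧ ∀ F : Finset Z, F.card = n → ∃ U ∈ 𝓤, (F : Set Z) ⊆ U

def S1n (Z : Type*) [TopologicalSpace Z] : Prop :=
  ∀ 𝓤 : ℕ → Set (Set Z), (∀ n, NCover (n + 1) (𝓤 n)) →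
    ∃ U : ℕ → Set Z, (∀ n, U n ∈ 𝓤 n) ∧ Ta (range U)

theorem result (hCH : Cardinal.continuum.{0} = Cardinal.aleph 1) :
    ∃ X : Set ℝ, S1 (Z := X) Om Ta ∧ ¬ S1n X := by
  classical
  obtain ⟨Y, a1, a2, a3, a4⟩ := gam hCH
  obtain ⟨X, e, e1, e2, e3, e4, e5⟩ := wrap Y
  refine ⟨X, fun 𝓤 h1 => ?_, fun h => ?_⟩
  · choose U u1 u2 u3 using fun n => om_seq (h1 n)
    choose O o1 o2 using fun n m => e5 _ ((h1 n).1.1 _ (u2 n m))
    obtain ⟨m, hm⟩ := a4 O o1 fun n F c1 c2 =>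
      (u3 n (e ⁻¹' F) (c1.preimage e3.injOn)).exists.imp fun m hm A hA => by
        obtain ⟨x, rfl⟩ := e2 A (c2 hA)
        exact (o2 n m x).1 (hm hA)
    exact ⟨fun n => U n (m n), fun n => u2 _ _, ga_ta (ga_range (fun n => (h1 n).1.1 _ (u2 _ _))
      (fun n c => (h1 n).1.2.2 (c ▸ u2 _ _)) fun x => (hm _ (e1 x)).mono fun n => (o2 _ _ _).2)⟩
  let P : ℕ → ℕ → Set ℕ → Prop := fun n j A => ∀ i < 2 * (n / 2) + 3, n.pair i ∈ A ↔ i = j
  let W : ℕ → ℕ → Set X := fun n j => {x | (Nat.pair 0 5 ∈ e x ↔ n % 2 = 0) ∨ ¬ P n j (e x)}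
  have p0 : ∀ n i, i < 2 * (n / 2) + 3 → n.pair i ≠ Nat.pair 0 5 := fun n i hi c => by
    have := Nat.pair_eq_pair.1 c; omega
  have p1 : ∀ A ∈ Y, ∀ q : Prop, ∃ x, (Nat.pair 0 5 ∈ e x ↔ q) ∧
      ∀ i, i ≠ Nat.pair 0 5 → (i ∈ e x ↔ i ∈ A) := fun A hA q => by
    obtain ⟨x, hx⟩ := e2 {i | if i = Nat.pair 0 5 then q else i ∈ A} (a1 A hA _
      ((eventually_ne_atTop _).mono fun i hi => by rw [mem_setOf_eq, if_neg hi]))
    exact ⟨x, by simp [hx], fun i hi => by rw [hx, mem_setOf_eq, if_neg hi]⟩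
  have p2 : ∀ n j, ∃ x, x ∉ W n j ∧ ∀ m, m ≠ n → ∀ l < 2 * (m / 2) + 3, x ∈ W m l := fun n j => by
    obtain ⟨x, c1, c2⟩ := p1 {n.pair j} (a1 _ a2 _ ((eventually_ne_atTop _).mono fun i hi =>
      iff_of_false hi id)) (¬ n % 2 = 0)
    refine ⟨x, fun c => c.elim (fun c => by tauto) fun c => c fun i hi => ?_,
      fun m hm l hl => Or.inr fun c => hm ?_⟩
    · rw [c2 _ (p0 n i hi), mem_singleton_iff, Nat.pair_eq_pair]
      simp
    · exact (Nat.pair_eq_pair.1 ((c2 _ (p0 m l hl)).1 ((c l hl).2 rfl))).1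
  have p3 : ∀ n, ∀ F : Finset X, F.card ≤ n + 1 →
      ∃ U ∈ W n '' {j | j < 2 * (n / 2) + 3}, (F : Set X) ⊆ U := fun n F hF => by
    have c1 : ∀ x, ∃ j, ∀ l < 2 * (n / 2) + 3, P n l (e x) → l = j := fun x => by
      by_cases c1 : ∃ j, P n j (e x)
      · exact c1.imp fun j c2 l c3 c4 => (c2 l c3).1 ((c4 l c3).2 rfl)
      · exact ⟨0, fun l _ c => absurd ⟨l, c⟩ c1⟩
    choose g hg using c1
    obtain ⟨j, c2, c3⟩ := Finset.exists_mem_notMem_of_card_lt_card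
      (s := F.image g) (t := Finset.range (2 * (n / 2) + 3))
      (Finset.card_image_le.trans_lt (by rw [Finset.card_range]; omega))
    exact ⟨_, ⟨j, Finset.mem_range.1 c2, rfl⟩, fun x hx => Or.inr fun c =>
      c3 (hg x j (Finset.mem_range.1 c2) c ▸ Finset.mem_image_of_mem g hx)⟩
  have p4 : ∀ i (q : Prop), IsClopen {x | i ∈ e x ↔ q} := fun i q => by
    by_cases hq : q
    · simpa [hq] using e4 i
    · simpa [hq, compl_setOf] using (e4 i).compl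
  obtain ⟨U, h1, h2⟩ := h (fun n => W n '' {j | j < 2 * (n / 2) + 3}) fun n =>
    ⟨⟨by
      rintro _ ⟨j, -, rfl⟩
      refine (p4 _ _).isOpen.union (isOpen_compl_iff (s := {x | P n j (e x)}).2 ?_)
      simp only [P, setOf_forall]
      exact isClosed_iInter fun i => isClosed_iInter fun _ => (p4 _ _).isClosed,
      eq_univ_of_forall fun x => let ⟨U, c1, c2⟩ := p3 n {x} (by simp); ⟨U, c1, c2 (by simp)⟩,
      fun ⟨j, _, c⟩ => let ⟨x, c1, _⟩ := p2 n j; c1 (c ▸ mem_univ x)⟩, fun F hF => p3 n F hF.le⟩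
  choose t t1 t2 using h1
  have h3 : Function.Injective U := fun n m c => by_contra fun c1 => by
    obtain ⟨x, c2, c3⟩ := p2 n (t n)
    exact c2 (t2 n ▸ c ▸ t2 m ▸ c3 m (Ne.symm c1) _ (t1 m))
  obtain ⟨A, hA, b, b1, b2⟩ := a3 t
  have h4 : ∀ r, ∀ x y : X, (∀ i, i ≠ Nat.pair 0 5 → (i ∈ e y ↔ i ∈ A)) →
      (Nat.pair 0 5 ∈ e x ↔ r % 2 = 0) → (Nat.pair 0 5 ∈ e y ↔ ¬ r % 2 = 0) → r < 2 →
      ¬ {V ∈ range U | x ∈ V ∧ y ∉ V}.Finite := fun r x y c1 c2 c3 c4 c5 =>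
    b1 ((c5.preimage (f := fun m => U (2 * m + r)) fun m _ l _ c => by
      have := h3 c; omega).subset fun m hm => by
        have c6 : (2 * m + r) % 2 = r % 2 := by omega
        have c7 : (2 * m + r) / 2 = m := by omega
        refine ⟨⟨_, rfl⟩, ?_, ?_⟩ <;> simp only [← t2]
        · exact Or.inl (c6 ▸ c2)
        · rintro (c | c)
          · rw [c6] at c; tauto
          · exact c fun i hi => (c1 _ (p0 _ i hi)).trans (b2 _ (c7.symm ▸ hm) i hi))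
  obtain ⟨x, x1, x2⟩ := p1 A hA True
  obtain ⟨y, y1, y2⟩ := p1 A hA False
  exact (h2.2.2 x y).elim (h4 0 x y y2 (by simpa using x1) (by simpa using y1) (by omega))
    (h4 1 y x x2 (by simpa using y1) (by simpa using x1) (by omega))

end Pool.Agent.Results.MP_a930b8_gt.Strict
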